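import Mathlib

namespace Pool.Agent.H.MP_b0d7fb_nt

def G (d x : ℝ) : Prop := ∃ m : ℤ, m + d ≤ x ∧ x ≤ m + 1 - d

theorem G.le {d x : ℝ} (h : G d x) : d ≤ |x - round x| := by
  obtain ⟨m, h1, h2⟩ := h
  rcases le_or_gt (round x) m with h | h
  · have : (round x : ℝ) ≤ m := by exact_mod_cast h
    exact le_abs.2 (Or.inl (by linarith))
  · have : (m : ℝ) + 1 ≤ round x := by exact_mod_cast h
    exact le_abs.2 (Or.inr (by linarith))

theorem G.mono {d e x : ℝ} (h : G d x) (he : e ≤ d) : G e x := by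
  obtain ⟨m, h1, h2⟩ := h; exact ⟨m, by linarith, by linarith⟩

theorem G.add {d x : ℝ} (h : G d x) (n : ℤ) : G d (x + n) := by
  obtain ⟨m, h1, h2⟩ := h; exact ⟨m + n, by push_cast; linarith, by push_cast; linarith⟩

theorem G.inv {d t : ℝ} {P v : ℕ} (hP : 0 < P) (hv : P ∣ v) (h : G d (v * t)) (j : ℤ) :
    G d (v * (t + j / P)) := by
  obtain ⟨w, rfl⟩ := hv
  convert h.add (w * j) using 1
  have : (P : ℝ) ≠ 0 := by positivity
  push_cast; field_simp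

theorem two (y r p q : ℝ) (hy : 0 < y) (hr : y ≤ r) (h2 : r ≤ 1 / 2) (hp : 0 < p) (hq : 0 < q) :
    ∃ t, G y (p * t) ∧ ∃ n : ℤ, |q * t - n| ≤ r := by
  set z := y * q / p with hz
  have z0 : 0 < z := by positivity
  have e : p * z = y * q := by rw [hz]; field_simp
  have l1 := Int.le_ceil (z - r)
  have l2 := Int.ceil_lt_add_one (z - r)
  generalize ⌈z - r⌉ = j at *
  rcases le_or_gt (j - r) z with h | h
  · refine ⟨z / q, ⟨0, ?_, ?_⟩, j, ?_⟩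
    · rw [← mul_div_assoc, e]; simp [hq.ne']
    · rw [← mul_div_assoc, e]; simp [hq.ne']; linarith
    · rw [mul_div_cancel₀ _ hq.ne', abs_le]; constructor <;> linarith
  · have j0 : (0 : ℤ) < j := by exact_mod_cast (show (0 : ℝ) < j by linarith)
    have j1 : (1 : ℝ) ≤ j := by exact_mod_cast j0
    have pq : p ≤ q := by nlinarith
    refine ⟨(j - r) / q, ⟨0, ?_, ?_⟩, j, ?_⟩
    · rw [← mul_div_assoc, le_div_iff₀ hq]; push_cast; nlinarith
    · rw [← mul_div_assoc, div_le_iff₀ hq]; push_cast; nlinarith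
    · rw [mul_div_cancel₀ _ hq.ne', abs_le]; constructor <;> linarith

theorem cell {P : ℕ} [NeZero P] (u lo hi A B : ℝ) (n : ℤ) (v : ℕ) (j : ZMod P)
    (h1 : n + lo ≤ P * u) (h2 : P * u ≤ n + hi)
    (h3 : P * A ≤ ((n : ZMod P) + v * j).val + lo) (h4 : ((n : ZMod P) + v * j).val + hi ≤ P * B) :
    ∃ m : ℤ, m + A ≤ u + v * ((j.val : ℤ) / P) ∧ u + v * ((j.val : ℤ) / P) ≤ m + B := by
  have hP : (0 : ℝ) < P := by exact_mod_cast NeZero.pos P
  have e : (((n : ZMod P) + v * j).val : ℤ) = (n + v * j.val) % P := by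
    rw [← ZMod.val_intCast]; push_cast; simp
  have e2 := Int.mul_ediv_add_emod (n + v * j.val) P
  rw [← e] at e2
  have e3 : (P : ℝ) * ((n + v * j.val) / P : ℤ) + ((n : ZMod P) + v * j).val = n + v * j.val := by
    exact_mod_cast e2
  have e4 : P * (u + v * (((j.val : ℤ) : ℝ) / P)) = P * u + v * j.val := by
    push_cast; field_simp
  refine ⟨(n + v * j.val) / P, le_of_mul_le_mul_left ?_ hP, le_of_mul_le_mul_left ?_ hP⟩
  · rw [e4]; linarith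
  · rw [e4]; linarith

theorem window {P : ℕ} [Fact P.Prime] (u c : ℝ) (v : ℕ) (hv : ¬ P ∣ v) :
    ∃ j m : ℤ, m + c ≤ u + v * (j / P) ∧ u + v * (j / P) ≤ m + (c + 1 / P) := by
  have hP : (0 : ℝ) < P := by exact_mod_cast NeZero.pos P
  have v0 : (v : ZMod P) ≠ 0 := by rwa [Ne, ZMod.natCast_eq_zero_iff]
  have e : ((⌊P * (u - c)⌋ : ℤ) : ZMod P) + v * (-(⌊P * (u - c)⌋ : ℤ) / v) = 0 := by
    field_simp; ring
  obtain ⟨m, hm⟩ := cell (P := P) u (P * c) (P * c + 1) c (c + 1 / P) ⌊P * (u - c)⌋ v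
    (-(⌊P * (u - c)⌋ : ℤ) / v) (by linarith [Int.floor_le (P * (u - c))])
    (by linarith [Int.lt_floor_add_one (P * (u - c))]) (by rw [e]; simp)
    (by rw [e]; simp; field_simp; rfl)
  exact ⟨_, m, hm⟩

theorem one {P : ℕ} [Fact P.Prime] (d t : ℝ) (v : ℕ) (hv : ¬ P ∣ v) (hd : 2 * d + 1 / P ≤ 1) :
    ∃ j : ℤ, G d (v * (t + j / P)) := by
  obtain ⟨j, m, h1, h2⟩ := window (v * t) d v hv
  exact ⟨j, m, by linarith [mul_add (v : ℝ) t (j / P)], by linarith [mul_add (v : ℝ) t (j / P)]⟩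

theorem half (d : ℝ) (hd : d ≤ 1 / 2) (a : ℕ) (ha : 0 < a) : G d (a * (1 / (2 * a))) := by
  have : (a : ℝ) * (1 / (2 * a)) = 1 / 2 := by field_simp
  rw [this]; exact ⟨0, by simpa using hd, by push_cast; linarith⟩

theorem none {P : ℕ} [Fact P.Prime] (x y : ℝ) (h : ℕ) (h1 : 0 < h) (h2 : h < P) (h3 : P * x ≤ h)
    (h4 : h ≤ P * (1 - x)) (hy : P * y ≤ 1) (a : ℕ) (ha : ¬ P ∣ a) :
    ∃ t, G x (a * t) ∧ ∀ b : ℕ, ¬ P ∣ b → G y (b * t) := by
  have v0 : (a : ZMod P) ≠ 0 := by rwa [Ne, ZMod.natCast_eq_zero_iff]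
  have h0 : (h : ZMod P) ≠ 0 := by
    rw [Ne, ZMod.natCast_eq_zero_iff]; exact Nat.not_dvd_of_pos_of_lt h1 h2
  refine ⟨(((h : ZMod P) / a).val : ℤ) / P, ?_, fun b hb => ?_⟩
  · have e : (((0 : ℤ) : ZMod P) + a * ((h : ZMod P) / a)).val = h := by
      rw [mul_div_cancel₀ _ v0]; simp [ZMod.val_natCast_of_lt h2]
    obtain ⟨m, hm⟩ := cell (P := P) 0 0 0 x (1 - x) 0 a ((h : ZMod P) / a) (by simp) (by simp)
      (by rw [e]; linarith) (by rw [e]; linarith)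
    exact ⟨m, by linarith, by linarith⟩
  · have b0 : (b : ZMod P) ≠ 0 := by rwa [Ne, ZMod.natCast_eq_zero_iff]
    have e : ((0 : ℤ) : ZMod P) + b * ((h : ZMod P) / a) ≠ 0 := by simp [*]
    have e1 : (1 : ℝ) ≤ (((0 : ℤ) : ZMod P) + b * ((h : ZMod P) / a)).val := by
      exact_mod_cast ZMod.val_pos.2 e
    have e2 : ((((0 : ℤ) : ZMod P) + b * ((h : ZMod P) / a)).val : ℝ) + 1 ≤ P := by
      exact_mod_cast ZMod.val_lt _
    obtain ⟨m, hm⟩ := cell (P := P) 0 0 0 y (1 - y) 0 b ((h : ZMod P) / a) (by simp) (by simp)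
      (by linarith) (by linarith)
    exact ⟨m, by linarith, by linarith⟩

theorem scale {P : ℕ} (hP : 0 < P) (a : ℕ) (t : ℝ) : ((P * a : ℕ) : ℝ) * (t / P) = a * t := by
  have : (P : ℝ) ≠ 0 := by positivity
  push_cast; field_simp

section
variable {P : ℕ} [hP : Fact P.Prime] (x y : ℝ) (hyx : y ≤ x) (hx : 2 * x + 1 / P ≤ 1)
  (hN : ∀ a : ℕ, ¬ P ∣ a → ∃ t, G x (a * t) ∧ ∀ b : ℕ, ¬ P ∣ b → G y (b * t))
include hyx hx hN

theorem pair (a : ℕ) : ∀ b : ℕ, 0 < a → 0 < b → ∃ t, G x (a * t) ∧ G y (b * t) := by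
  have p0 := hP.out.pos
  have : (0 : ℝ) ≤ 1 / P := by positivity
  induction a using Nat.strong_induction_on with
  | _ a ih =>
    intro b ha hb
    by_cases h1 : P ∣ a <;> by_cases h2 : P ∣ b
    · obtain ⟨a, rfl⟩ := h1; obtain ⟨b, rfl⟩ := h2
      have a0 := Nat.pos_of_mul_pos_left ha
      obtain ⟨t, ht⟩ := ih a (lt_mul_left a0 hP.out.one_lt) b a0 (Nat.pos_of_mul_pos_left hb)
      exact ⟨t / P, by rwa [scale p0, scale p0]⟩
    · obtain ⟨j, hj⟩ := one y (1 / (2 * a)) b h2 (by linarith)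
      exact ⟨_, (half x (by linarith) a ha).inv p0 h1 j, hj⟩
    · obtain ⟨j, hj⟩ := one x (1 / (2 * b)) a h1 hx
      exact ⟨_, hj, (half y (by linarith) b hb).inv p0 h2 j⟩
    · obtain ⟨t, h3, h4⟩ := hN a h1
      exact ⟨t, h3, h4 b h2⟩

theorem triple
    (HA : ∀ a b c : ℕ, 0 < a → P ∣ a → ¬ P ∣ b → ¬ P ∣ c →
      ∃ t, G x (a * t) ∧ G y (b * t) ∧ G y (c * t))
    (HD : ∀ a b c : ℕ, 0 < b → a ≠ c → ¬ P ∣ a → P ∣ b → ¬ P ∣ c →
      ∃ t, G x (a * t) ∧ G y (b * t) ∧ G y (c * t)) (a : ℕ) :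
    ∀ b c : ℕ, 0 < a → 0 < b → 0 < c → a ≠ b → a ≠ c →
      ∃ t, G x (a * t) ∧ G y (b * t) ∧ G y (c * t) := by
  have p0 := hP.out.pos
  induction a using Nat.strong_induction_on with
  | _ a ih =>
    intro b c ha hb hc ab ac
    by_cases h1 : P ∣ a <;> by_cases h2 : P ∣ b <;> by_cases h3 : P ∣ c
    · obtain ⟨a, rfl⟩ := h1; obtain ⟨b, rfl⟩ := h2; obtain ⟨c, rfl⟩ := h3
      have a0 := Nat.pos_of_mul_pos_left ha
      obtain ⟨t, ht⟩ := ih a (lt_mul_left a0 hP.out.one_lt) b c a0 (Nat.pos_of_mul_pos_left hb)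
        (Nat.pos_of_mul_pos_left hc) (fun e => ab (by rw [e])) (fun e => ac (by rw [e]))
      exact ⟨t / P, by rwa [scale p0, scale p0, scale p0]⟩
    · obtain ⟨t, t1, t2⟩ := pair x y hyx hx hN a b ha hb
      obtain ⟨j, hj⟩ := one y t c h3 (by linarith)
      exact ⟨_, t1.inv p0 h1 j, t2.inv p0 h2 j, hj⟩
    · obtain ⟨t, t1, t2⟩ := pair x y hyx hx hN a c ha hc
      obtain ⟨j, hj⟩ := one y t b h2 (by linarith)
      exact ⟨_, t1.inv p0 h1 j, hj, t2.inv p0 h3 j⟩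
    · exact HA a b c ha h1 h2 h3
    · obtain ⟨t, t1, t2⟩ := pair x y hyx hx hN b c hb hc
      obtain ⟨j, hj⟩ := one x t a h1 hx
      exact ⟨_, hj, (t1.mono hyx).inv p0 h2 j, t2.inv p0 h3 j⟩
    · exact HD a b c hb ac h1 h2 h3
    · obtain ⟨t, t1, t2, t3⟩ := HD a c b hc ab h1 h3 h2
      exact ⟨t, t1, t3, t2⟩
    · obtain ⟨t, h4, h5⟩ := hN a h1
      exact ⟨t, h4, h5 b h2, h5 c h3⟩
end

end Pool.Agent.H.MP_b0d7fb_nt
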