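import Pool.Agent.H.MP_b0d7fb_nt.A

namespace Pool.Agent.H.MP_b0d7fb_nt

instance f5 : Fact (Nat.Prime 5) := ⟨by norm_num⟩
instance f7 : Fact (Nat.Prime 7) := ⟨by norm_num⟩

theorem sh2 {P : ℕ} [NeZero P] (d e t lo hi lo' hi' : ℝ) (n n' : ℤ) (a c α β α' β' : ℕ)
    (h1 : n + lo ≤ P * (a * t)) (h2 : P * (a * t) ≤ n + hi)
    (h3 : n' + lo' ≤ P * (c * t)) (h4 : P * (c * t) ≤ n' + hi')
    (h5 : P * d ≤ α + lo) (h6 : β + hi ≤ P * (1 - d))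
    (h7 : P * e ≤ α' + lo') (h8 : β' + hi' ≤ P * (1 - e))
    (h : ∃ j : ZMod P, α ≤ ((n : ZMod P) + a * j).val ∧ ((n : ZMod P) + a * j).val ≤ β ∧
      α' ≤ ((n' : ZMod P) + c * j).val ∧ ((n' : ZMod P) + c * j).val ≤ β') :
    ∃ j : ℤ, G d (a * (t + j / P)) ∧ G e (c * (t + j / P)) := by
  obtain ⟨j, k1, k2, k3, k4⟩ := h
  have k1 : (α : ℝ) ≤ ((n : ZMod P) + a * j).val := by exact_mod_cast k1
  have k2 : (((n : ZMod P) + a * j).val : ℝ) ≤ β := by exact_mod_cast k2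
  have k3 : (α' : ℝ) ≤ ((n' : ZMod P) + c * j).val := by exact_mod_cast k3
  have k4 : (((n' : ZMod P) + c * j).val : ℝ) ≤ β' := by exact_mod_cast k4
  obtain ⟨m, m1, m2⟩ := cell (a * t) lo hi d (1 - d) n a j h1 h2 (by linarith) (by linarith)
  obtain ⟨l, l1, l2⟩ := cell (c * t) lo' hi' e (1 - e) n' c j h3 h4 (by linarith) (by linarith)
  exact ⟨j.val, ⟨m, by rw [mul_add]; linarith, by rw [mul_add]; linarith⟩,
    ⟨l, by rw [mul_add]; linarith, by rw [mul_add]; linarith⟩⟩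

theorem HA {P : ℕ} [hP : Fact P.Prime] (x y : ℝ) (hx : x ≤ 1 / 2) (hy : P * y ≤ 1)
    (hd : ∀ n n' b c : ZMod P, b ≠ 0 → c ≠ 0 → ∃ j : ZMod P, 1 ≤ (n + b * j).val ∧
      (n + b * j).val ≤ P - 2 ∧ 1 ≤ (n' + c * j).val ∧ (n' + c * j).val ≤ P - 2)
    (a b c : ℕ) (ha : 0 < a) (h1 : P ∣ a) (h2 : ¬ P ∣ b) (h3 : ¬ P ∣ c) :
    ∃ t, G x (a * t) ∧ G y (b * t) ∧ G y (c * t) := by
  have e : ((P - 2 : ℕ) : ℝ) = P - 2 := by rw [Nat.cast_sub hP.out.two_le]; simp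
  set t : ℝ := 1 / (2 * a)
  obtain ⟨j, j1, j2⟩ := sh2 (P := P) y y t 0 1 0 1 ⌊P * (b * t)⌋ ⌊P * (c * t)⌋ b c 1 (P - 2) 1
    (P - 2) (by simpa using Int.floor_le _) (Int.lt_floor_add_one _).le
    (by simpa using Int.floor_le _) (Int.lt_floor_add_one _).le (by simpa using hy)
    (by rw [e]; linarith) (by simpa using hy) (by rw [e]; linarith)
    (hd _ _ _ _ (by rwa [Ne, ZMod.natCast_eq_zero_iff]) (by rwa [Ne, ZMod.natCast_eq_zero_iff]))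
  exact ⟨_, (half x hx a ha).inv hP.out.pos h1 j, j1, j2⟩

theorem T7 (a b c : ℕ) : 0 < a → 0 < b → 0 < c → a ≠ b → a ≠ c →
    ∃ t, G (5 / 12) (a * t) ∧ G (1 / 14) (b * t) ∧ G (1 / 14) (c * t) := by
  refine triple (P := 7) _ _ (by norm_num) (by norm_num)
    (none _ _ 3 (by norm_num) (by norm_num) (by norm_num) (by norm_num) (by norm_num))
    (HA _ _ (by norm_num) (by norm_num) (by decide +kernel)) ?_ a b c
  intro a b c hb _ h1 h2 h3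
  have a0 : 0 < a := Nat.pos_of_ne_zero fun e => h1 (by simp [e])
  obtain ⟨t, t1, n, hn⟩ := two (1 / 14) (1 / 12) b (7 * a) (by norm_num) (by norm_num)
    (by norm_num) (by positivity) (by positivity)
  rw [abs_le] at hn
  have hd : ∀ n n' a c : ZMod 7, a ≠ 0 → c ≠ 0 → ∃ j : ZMod 7, 3 ≤ (n + a * j).val ∧
      (n + a * j).val ≤ 4 ∧ 1 ≤ (n' + c * j).val ∧ (n' + c * j).val ≤ 6 := by decide +kernel
  obtain ⟨j, j1, j2⟩ := sh2 (P := 7) (5 / 12) (1 / 14) t (-(1 / 12)) (1 / 12) (-(1 / 2)) (1 / 2) n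
    ⌊7 * (c * t) + 1 / 2⌋ a c 3 4 1 6 (by push_cast; linarith) (by push_cast; linarith)
    (by push_cast; linarith [Int.floor_le (7 * (c * t) + 1 / 2)])
    (by push_cast; linarith [Int.lt_floor_add_one (7 * (c * t) + 1 / 2)])
    (by norm_num) (by norm_num) (by norm_num) (by norm_num)
    (hd _ _ _ _ (by rwa [Ne, ZMod.natCast_eq_zero_iff]) (by rwa [Ne, ZMod.natCast_eq_zero_iff]))
  exact ⟨_, j1, t1.inv (by norm_num) h2 j, j2⟩

theorem D5 (a b c : ℕ) (ε w : ℤ) (hε : ε = 1 ∨ ε = -1) (hb : 0 < b) (h1 : ¬ 5 ∣ a) (h2 : 5 ∣ b)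
    (hw : (c : ℤ) = ε * a + 5 * w) (w0 : w ≠ 0) :
    ∃ t, G (7 / 20) (a * t) ∧ G (1 / 5) (b * t) ∧ G (1 / 5) (c * t) := by
  obtain ⟨t, t1, n, hn⟩ : ∃ t : ℝ, G (1 / 5) (b * t) ∧ ∃ n : ℤ, |5 * w * t - n| ≤ 1 / 4 := by
    obtain ⟨t, t1, n, hn⟩ := two (1 / 5) (1 / 4) b (5 * |(w : ℝ)|) (by norm_num) (by norm_num)
      (by norm_num) (by positivity) (by positivity)
    rcases abs_choice (w : ℝ) with e | e <;> rw [e] at hn
    · exact ⟨t, t1, n, hn⟩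
    · refine ⟨t, t1, -n, ?_⟩
      rw [← abs_neg]; convert hn using 2; push_cast; ring
  rw [abs_le] at hn
  have hw : (c : ℝ) = ε * a + 5 * w := by exact_mod_cast hw
  obtain ⟨j, m, m1, m2⟩ := window (P := 5) (a * t)
    (if 0 ≤ ε * (5 * w * t - n) then 7 / 20 else 9 / 20) a h1
  rw [← mul_add] at m1 m2
  have e : c * (t + j / (5 : ℕ)) = ε * (a * (t + j / (5 : ℕ))) + (5 * w * t - n) + (n + w * j) := by
    rw [hw]; push_cast; ring
  refine ⟨t + j / (5 : ℕ), ⟨m, ?_, ?_⟩, t1.inv (by norm_num) h2 j, ?_⟩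
  · split_ifs at m1 <;> linarith
  · split_ifs at m2 <;> push_cast at m2 ⊢ <;> linarith
  · rw [e]
    generalize a * (t + j / (5 : ℕ)) = u at *
    rcases hε with rfl | rfl
    · refine ⟨m + (n + w * j), ?_, ?_⟩ <;> split_ifs at m1 m2 <;> push_cast at * <;> linarith
    · refine ⟨-m - 1 + (n + w * j), ?_, ?_⟩ <;> split_ifs at m1 m2 <;> push_cast at * <;> linarith

theorem T5 (a b c : ℕ) : 0 < a → 0 < b → 0 < c → a ≠ b → a ≠ c →
    ∃ t, G (7 / 20) (a * t) ∧ G (1 / 5) (b * t) ∧ G (1 / 5) (c * t) := by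
  refine triple (P := 5) _ _ (by norm_num) (by norm_num)
    (none _ _ 2 (by norm_num) (by norm_num) (by norm_num) (by norm_num) (by norm_num))
    (HA _ _ (by norm_num) (by norm_num) (by decide +kernel)) ?_ a b c
  intro a b c hb ac h1 h2 h3
  by_cases e1 : (5 : ℤ) ∣ c - a
  · obtain ⟨w, hw⟩ := e1
    exact D5 a b c 1 w (Or.inl rfl) hb h1 h2 (by omega) (by omega)
  by_cases e2 : (5 : ℤ) ∣ c + a
  · obtain ⟨w, hw⟩ := e2
    exact D5 a b c (-1) w (Or.inr rfl) hb h1 h2 (by omega) (by omega)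
  have a0 : 0 < a := Nat.pos_of_ne_zero fun e => h1 (by simp [e])
  obtain ⟨t, t1, n, hn⟩ := two (1 / 5) (1 / 4) b (5 * a) (by norm_num) (by norm_num)
    (by norm_num) (by positivity) (by positivity)
  rw [abs_le] at hn
  have hd : ∀ n n' a c : ZMod 5, a ≠ 0 → c - a ≠ 0 → c + a ≠ 0 → c ≠ 0 → ∃ j : ZMod 5,
      2 ≤ (n + a * j).val ∧ (n + a * j).val ≤ 3 ∧ 1 ≤ (n' + c * j).val ∧ (n' + c * j).val ≤ 3 := by
    decide +kernel
  obtain ⟨j, j1, j2⟩ := sh2 (P := 5) (7 / 20) (1 / 5) t (-(1 / 4)) (1 / 4) 0 1 n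
    ⌊5 * (c * t)⌋ a c 2 3 1 3 (by push_cast; linarith) (by push_cast; linarith)
    (by push_cast; linarith [Int.floor_le (5 * (c * t))])
    (by push_cast; linarith [Int.lt_floor_add_one (5 * (c * t))])
    (by norm_num) (by norm_num) (by norm_num) (by norm_num)
    (hd _ _ _ _ (by rwa [Ne, ZMod.natCast_eq_zero_iff])
      (fun e => e1 ((ZMod.intCast_zmod_eq_zero_iff_dvd (c - a) 5).1 (by simpa using e)))
      (fun e => e2 ((ZMod.intCast_zmod_eq_zero_iff_dvd (c + a) 5).1 (by simpa using e)))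
      (by rwa [Ne, ZMod.natCast_eq_zero_iff]))
  exact ⟨_, j1, t1.inv (by norm_num) h2 j, j2⟩

theorem E1 (a b c : ℕ) (hb : 0 < b) (ba : b < a) (h2 : 2 ∣ b) (h3 : ¬ 2 ∣ c) :
    ∃ t, G (1 / 4) (a * t) ∧ G (1 / 4) (b * t) ∧ G (1 / 4) (c * t) := by
  have b0 : (0 : ℝ) < b := by exact_mod_cast hb
  have ba : (b : ℝ) < a := by exact_mod_cast ba
  have l1 := Int.le_ceil (((a : ℝ) / b - 1) / 2)
  have l2 := Int.ceil_lt_add_one (((a : ℝ) / b - 1) / 2)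
  generalize ⌈((a : ℝ) / b - 1) / 2⌉ = j at *
  have l3 : (a : ℝ) / b ≤ 2 * j + 1 := by linarith
  have l4 : 2 * j - 1 < (a : ℝ) / b := by linarith
  rw [div_le_iff₀ b0] at l3; rw [lt_div_iff₀ b0] at l4
  have a0 : (0 : ℝ) < a := by linarith
  obtain ⟨i, hi⟩ := one (P := 2) (1 / 4) ((2 * j + 1) / (4 * a)) c h3 (by norm_num)
  refine ⟨_, ?_, G.inv (by norm_num) h2 ⟨0, ?_, ?_⟩ i, hi⟩
  · have : (a : ℝ) * ((2 * j + 1) / (4 * a) + i / (2 : ℕ)) = ((j + a * i : ℤ) : ℝ) / 2 + 1 / 4 := by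
      push_cast; field_simp; ring
    rw [this]
    generalize j + a * i = n
    obtain ⟨m, rfl | rfl⟩ := Int.even_or_odd' n
    · exact ⟨m, by push_cast; linarith, by push_cast; linarith⟩
    · exact ⟨m, by push_cast; linarith, by push_cast; linarith⟩
  · rw [← mul_div_assoc, le_div_iff₀ (by positivity)]; push_cast; linarith
  · rw [← mul_div_assoc, div_le_iff₀ (by positivity)]; push_cast; linarith

theorem E2 (a b c : ℕ) (hb : 0 < b) (h1 : ¬ 2 ∣ a) (h2 : 2 ∣ b) (h3 : ¬ 2 ∣ c) :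
    ∃ t, G (1 / 4) (a * t) ∧ G (1 / 4) (b * t) ∧ G (1 / 4) (c * t) := by
  rcases lt_or_ge b a with h | h
  · exact E1 a b c hb h h2 h3
  rcases lt_or_ge b c with h' | h'
  · obtain ⟨t, t1, t2, t3⟩ := E1 c b a hb h' h2 h1
    exact ⟨t, t3, t2, t1⟩
  have b0 : (0 : ℝ) < b := by exact_mod_cast hb
  have k : ∀ a : ℕ, ¬ 2 ∣ a → a ≤ b → G (1 / 4) (a * (1 / 2 + 1 / (4 * b))) := by
    intro a h1 h
    obtain ⟨m, rfl⟩ : ∃ m, a = 2 * m + 1 := ⟨a / 2, by omega⟩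
    have l1 : ((2 * m + 1 : ℕ) : ℝ) * (1 / (4 * b)) ≤ 1 / 4 := by
      rw [mul_one_div, div_le_iff₀ (by positivity)]
      have : ((2 * m + 1 : ℕ) : ℝ) ≤ b := by exact_mod_cast h
      linarith
    have l2 : 0 ≤ ((2 * m + 1 : ℕ) : ℝ) * (1 / (4 * b)) := by positivity
    rw [mul_add]
    exact ⟨m, by push_cast at *; linarith, by push_cast at *; linarith⟩
  refine ⟨1 / 2 + 1 / (4 * b), k a h1 h, ?_, k c h3 h'⟩
  obtain ⟨m, rfl⟩ := h2
  have : ((2 * m : ℕ) : ℝ) * (1 / 2 + 1 / (4 * (2 * m : ℕ))) = m + 1 / 4 := by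
    field_simp; push_cast; ring
  rw [this]; exact ⟨m, by push_cast; linarith, by push_cast; linarith⟩

theorem T2 (a b c : ℕ) : 0 < a → 0 < b → 0 < c → a ≠ b → a ≠ c →
    ∃ t, G (1 / 4) (a * t) ∧ G (1 / 4) (b * t) ∧ G (1 / 4) (c * t) := by
  refine triple (P := 2) _ _ le_rfl (by norm_num)
    (none _ _ 1 (by norm_num) (by norm_num) (by norm_num) (by norm_num) (by norm_num))
    (fun a b c ha h1 h2 h3 => ?_) (fun a b c hb _ h1 h2 h3 => E2 a b c hb h1 h2 h3) a b c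
  obtain ⟨t, t1, t2, t3⟩ := E2 b a c ha h2 h1 h3
  exact ⟨t, t2, t1, t3⟩

end Pool.Agent.H.MP_b0d7fb_nt
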